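import Mathlib

set_option autoImplicit false

open scoped BigOperators RealInnerProductSpace

namespace Pool.Agent.H397R3.LP

/-- One step of the chain argument for symmetric operators. -/
theorem abs_step {X : Type} [NormedAddCommGroup X] [InnerProductSpace ℝ X]
    [FiniteDimensional ℝ X] {T : X →ₗ[ℝ] X} (hT : T.IsSymmetric) (x : X) (hx : ‖x‖ = 1)
    (E τ d : ℝ) (hτ : 0 < τ) (hd : 4 * τ ≤ d) (hr : ‖T x - E • x‖ ^ 2 ≤ 2 * τ ^ 2)
    (hgap : ∀ (e e' : ℝ) (v v' : X), ‖v‖ = 1 → ‖v'‖ = 1 → T v = e • v → T v' = e' • v' →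
      |e - e'| ≤ d → e = e') :
    ∃ (E' : ℝ) (y : X), ‖y‖ = 1 ∧ T y = E' • y ∧ |E' - E| ≤ 2 * τ ∧
      ‖x - y‖ ^ 2 ≤ (4 * τ / d) ^ 2 := by
  classical
  have hd0 : 0 < d := by linarith
  let n := Module.finrank ℝ X
  have hn : Module.finrank ℝ X = n := rfl
  let bs := hT.eigenvectorBasis hn
  let ev := hT.eigenvalues hn
  have hev : ∀ i, T (bs i) = ev i • bs i := fun i => hT.apply_eigenvectorBasis hn i
  have hbn : ∀ i, ‖bs i‖ = 1 := fun i => bs.norm_eq_one i
  let c : Fin n → ℝ := fun i => ⟪bs i, x⟫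
  have hc1 : ∑ i, c i ^ 2 = 1 := by
    have := bs.sum_sq_inner_right x
    rw [hx] at this
    simpa using this
  have hr1 : ∀ i, ⟪bs i, T x - E • x⟫ = (ev i - E) * c i := by
    intro i
    rw [inner_sub_right, ← hT, hev, inner_smul_left, inner_smul_right]
    simp only [c, conj_trivial]
    ring
  have hr2 : ∑ i, ((ev i - E) * c i) ^ 2 ≤ 2 * τ ^ 2 := by
    have := bs.sum_sq_inner_right (T x - E • x)
    simp only [hr1] at this
    rw [this]; exact hr
  let S : Finset (Fin n) := Finset.univ.filter (fun i => |ev i - E| ≤ d / 2)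
  let m : ℝ := ∑ i ∈ S, c i ^ 2
  have hsplit : m + ∑ i ∈ Finset.univ.filter (fun i => ¬ |ev i - E| ≤ d / 2), c i ^ 2 = 1 := by
    rw [← hc1]; exact Finset.sum_filter_add_sum_filter_not _ _ _
  have htail : (∑ i ∈ Finset.univ.filter (fun i => ¬ |ev i - E| ≤ d / 2), c i ^ 2) * (d ^ 2 / 4) ≤
      2 * τ ^ 2 := by
    rw [Finset.sum_mul]
    refine le_trans ?_ hr2
    refine le_trans (Finset.sum_le_sum (g := fun i => ((ev i - E) * c i) ^ 2) ?_) ?_
    · intro i hi
      rw [Finset.mem_filter] at hi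
      have h1 : d / 2 < |ev i - E| := not_le.mp hi.2
      have h2 : (d / 2) ^ 2 ≤ (ev i - E) ^ 2 := by
        rw [← sq_abs (ev i - E)]
        exact pow_le_pow_left₀ (by linarith) h1.le 2
      rw [mul_pow, mul_comm]
      exact mul_le_mul_of_nonneg_right (by nlinarith) (sq_nonneg _)
    · exact Finset.sum_le_sum_of_subset_of_nonneg (Finset.filter_subset _ _)
        (fun i _ _ => sq_nonneg _)
  have hm1 : 1 - m ≤ 8 * τ ^ 2 / d ^ 2 := by
    have h1 : 1 - m = ∑ i ∈ Finset.univ.filter (fun i => ¬ |ev i - E| ≤ d / 2), c i ^ 2 := by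
      linarith
    rw [← h1] at htail
    rw [le_div_iff₀ (by positivity)]
    linarith
  have hsmall : 8 * τ ^ 2 / d ^ 2 ≤ 1 / 2 := by
    rw [div_le_iff₀ (by positivity)]
    nlinarith
  have hm2 : 1 / 2 ≤ m := by linarith
  have hmle : m ≤ 1 := by
    have : 0 ≤ ∑ i ∈ Finset.univ.filter (fun i => ¬ |ev i - E| ≤ d / 2), c i ^ 2 :=
      Finset.sum_nonneg fun i _ => sq_nonneg _
    linarith
  have hSne : S.Nonempty := by
    by_contra hne
    rw [Finset.not_nonempty_iff_eq_empty] at hne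
    have : m = 0 := by
      show ∑ i ∈ S, c i ^ 2 = 0
      rw [hne, Finset.sum_empty]
    linarith
  obtain ⟨i₀, hi₀⟩ := hSne
  have hSe : ∀ i ∈ S, ev i = ev i₀ := by
    intro i hi
    refine hgap _ _ (bs i) (bs i₀) (hbn i) (hbn i₀) (hev i) (hev i₀) ?_
    have h1 := (Finset.mem_filter.mp hi).2
    have h2 := (Finset.mem_filter.mp hi₀).2
    have h3 : ev i - ev i₀ = (ev i - E) - (ev i₀ - E) := by ring
    rw [h3]
    exact (abs_sub _ _).trans (by linarith)
  let P : X := ∑ i ∈ S, c i • bs i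
  have hTP : T P = ev i₀ • P := by
    show T (∑ i ∈ S, c i • bs i) = ev i₀ • ∑ i ∈ S, c i • bs i
    rw [map_sum, Finset.smul_sum]
    refine Finset.sum_congr rfl fun i hi => ?_
    rw [map_smul, hev, hSe i hi, smul_comm]
  have hxP : ⟪x, P⟫ = m := by
    show ⟪x, ∑ i ∈ S, c i • bs i⟫ = ∑ i ∈ S, c i ^ 2
    rw [inner_sum]
    refine Finset.sum_congr rfl fun i hi => ?_
    rw [inner_smul_right, real_inner_comm, sq]
  have hPP : ⟪P, P⟫ = m := by
    have h1 : ∀ i ∈ S, ⟪bs i, P⟫ = c i := by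
      intro i hi
      show ⟪bs i, ∑ j ∈ S, c j • bs j⟫ = c i
      rw [inner_sum, Finset.sum_eq_single i]
      · rw [inner_smul_right, real_inner_self_eq_norm_sq, hbn]; ring
      · intro j _ hj
        rw [inner_smul_right, bs.inner_eq_zero (Ne.symm hj), mul_zero]
      · intro h; exact absurd hi h
    show ⟪∑ i ∈ S, c i • bs i, P⟫ = ∑ i ∈ S, c i ^ 2
    rw [sum_inner]
    refine Finset.sum_congr rfl fun i hi => ?_
    rw [inner_smul_left, h1 i hi, sq]
    simp
  have hm0 : 0 < m := by linarith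
  have hs0 : 0 < Real.sqrt m := Real.sqrt_pos.mpr hm0
  have hss : Real.sqrt m * Real.sqrt m = m := Real.mul_self_sqrt hm0.le
  refine ⟨ev i₀, (Real.sqrt m)⁻¹ • P, ?_, ?_, ?_, ?_⟩
  · have h1 : ‖P‖ = Real.sqrt m := by
      rw [← hPP, real_inner_self_eq_norm_sq, Real.sqrt_sq (norm_nonneg _)]
    rw [norm_smul, h1, norm_inv, Real.norm_eq_abs, abs_of_pos hs0, inv_mul_cancel₀ hs0.ne']
  · rw [map_smul, hTP, smul_comm]
  · have h1 : (ev i₀ - E) ^ 2 * m ≤ 2 * τ ^ 2 := by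
      have h2 : (ev i₀ - E) ^ 2 * m = ∑ i ∈ S, ((ev i - E) * c i) ^ 2 := by
        show (ev i₀ - E) ^ 2 * ∑ i ∈ S, c i ^ 2 = _
        rw [Finset.mul_sum]
        refine Finset.sum_congr rfl fun i hi => ?_
        rw [hSe i hi]; ring
      rw [h2]
      exact (Finset.sum_le_sum_of_subset_of_nonneg (Finset.subset_univ _)
        (fun i _ _ => sq_nonneg _)).trans hr2
    have h3 : (ev i₀ - E) ^ 2 ≤ (2 * τ) ^ 2 := by
      nlinarith [sq_nonneg (ev i₀ - E)]
    exact abs_le_of_sq_le_sq h3 (by linarith)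
  · have h1 : ‖x - (Real.sqrt m)⁻¹ • P‖ ^ 2 = 2 - 2 * Real.sqrt m := by
      rw [@norm_sub_sq_real, hx, inner_smul_right, hxP, norm_smul, mul_pow,
        ← real_inner_self_eq_norm_sq P, hPP, norm_inv, Real.norm_eq_abs, abs_of_pos hs0]
      field_simp
      nlinarith [Real.sq_sqrt hm0.le]
    rw [h1]
    have h2 : 1 - Real.sqrt m ≤ 1 - m := by
      have : Real.sqrt m ≤ 1 := by
        rw [Real.sqrt_le_iff]; exact ⟨zero_le_one, by rw [one_pow]; exact hmle⟩
      nlinarith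
    have h3 : (4 * τ / d) ^ 2 = 2 * (8 * τ ^ 2 / d ^ 2) := by
      field_simp; ring
    rw [h3]; linarith

end Pool.Agent.H397R3.LP
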