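import Pool.Agent.H695R3.PP.Stmts
import Pool.Agent.H397R3.LP.StepAbs

set_option autoImplicit false

open scoped BigOperators RealInnerProductSpace

namespace Pool.Agent.H397R3.LP

open Pool.Agent.H695R3.PP

section box
variable (a b : ℤ)

/-- Extension by zero. -/
noncomputable def ext (v : EuclideanSpace ℝ (Finset.Icc a b)) (n : ℤ) : ℝ :=
  if h : n ∈ Finset.Icc a b then v ⟨n, h⟩ else 0

variable {a b}

theorem ext_of_mem (v : EuclideanSpace ℝ (Finset.Icc a b)) (i : Finset.Icc a b) :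
    ext a b v i = v i := by
  unfold ext
  rw [dif_pos i.2]

theorem ext_of_not (v : EuclideanSpace ℝ (Finset.Icc a b)) (n : ℤ) (h : n ∉ Finset.Icc a b) :
    ext a b v n = 0 := by
  unfold ext
  rw [dif_neg h]

theorem ext_add (v w : EuclideanSpace ℝ (Finset.Icc a b)) (n : ℤ) :
    ext a b (v + w) n = ext a b v n + ext a b w n := by
  unfold ext
  split_ifs <;> simp

theorem ext_smul (c : ℝ) (v : EuclideanSpace ℝ (Finset.Icc a b)) (n : ℤ) :
    ext a b (c • v) n = c * ext a b v n := by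
  unfold ext
  split_ifs <;> simp

/-- The box operator. -/
noncomputable def Tbox (V : ℤ → ℝ) :
    EuclideanSpace ℝ (Finset.Icc a b) →ₗ[ℝ] EuclideanSpace ℝ (Finset.Icc a b) where
  toFun v := WithLp.toLp 2 (fun i : Finset.Icc a b =>
    ext a b v (i + 1) + ext a b v (i - 1) + V i * v i)
  map_add' v w := by
    ext i
    simp only [ext_add, PiLp.add_apply]
    ring
  map_smul' c v := by
    ext i
    simp only [ext_smul, PiLp.smul_apply, smul_eq_mul, RingHom.id_apply]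
    ring

theorem Tbox_apply (V : ℤ → ℝ) (v : EuclideanSpace ℝ (Finset.Icc a b)) (i : Finset.Icc a b) :
    Tbox V v i = ext a b v (i + 1) + ext a b v (i - 1) + V i * v i := rfl

theorem sum_eq_tsum (f g : ℤ → ℝ) (hg : ∀ n, n ∉ Finset.Icc a b → g n = 0) :
    ∑ n ∈ Finset.Icc a b, f n * g n = ∑' n, f n * g n := by
  symm
  apply tsum_eq_sum
  intro n hn
  rw [hg n hn, mul_zero]

theorem shift_sum (f g : ℤ → ℝ) (hf : ∀ n, n ∉ Finset.Icc a b → f n = 0)
    (hg : ∀ n, n ∉ Finset.Icc a b → g n = 0) :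
    ∑ n ∈ Finset.Icc a b, f (n + 1) * g n = ∑ n ∈ Finset.Icc a b, f n * g (n - 1) := by
  rw [sum_eq_tsum (fun n => f (n + 1)) g hg]
  have h1 : ∑ n ∈ Finset.Icc a b, f n * g (n - 1) = ∑ n ∈ Finset.Icc a b, g (n - 1) * f n :=
    Finset.sum_congr rfl fun n _ => mul_comm _ _
  rw [h1, sum_eq_tsum (fun n => g (n - 1)) f hf]
  have h2 := (Equiv.subRight (1:ℤ)).tsum_eq (fun n => f (n + 1) * g n)
  rw [← h2]
  congr 1
  funext n
  show f (n - 1 + 1) * g (n - 1) = _
  rw [sub_add_cancel, mul_comm]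

theorem inner_eq (v w : EuclideanSpace ℝ (Finset.Icc a b)) :
    ⟪v, w⟫ = ∑ n ∈ Finset.Icc a b, ext a b v n * ext a b w n := by
  rw [PiLp.inner_apply,
    ← Finset.sum_coe_sort (Finset.Icc a b) (fun n => ext a b v n * ext a b w n)]
  apply Finset.sum_congr rfl
  intro i _
  rw [ext_of_mem, ext_of_mem]
  simp [mul_comm]

theorem ext_Tbox (V : ℤ → ℝ) (v : EuclideanSpace ℝ (Finset.Icc a b)) (n : ℤ)
    (hn : n ∈ Finset.Icc a b) :
    ext a b (Tbox V v) n = ext a b v (n + 1) + ext a b v (n - 1) + V n * ext a b v n := by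
  have h1 := ext_of_mem (Tbox V v) ⟨n, hn⟩
  have h2 := ext_of_mem v ⟨n, hn⟩
  simp only at h1 h2
  rw [h1, Tbox_apply, h2]

theorem Tbox_symm (V : ℤ → ℝ) : (Tbox V : EuclideanSpace ℝ (Finset.Icc a b) →ₗ[ℝ] _).IsSymmetric := by
  intro v w
  rw [inner_eq, inner_eq]
  have h1 : ∑ n ∈ Finset.Icc a b, ext a b (Tbox V v) n * ext a b w n =
      ∑ n ∈ Finset.Icc a b, ext a b v (n + 1) * ext a b w n +
      ∑ n ∈ Finset.Icc a b, ext a b v (n - 1) * ext a b w n +
      ∑ n ∈ Finset.Icc a b, V n * ext a b v n * ext a b w n := by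
    rw [← Finset.sum_add_distrib, ← Finset.sum_add_distrib]
    refine Finset.sum_congr rfl fun n hn => ?_
    rw [ext_Tbox V v n hn]; ring
  have h2 : ∑ n ∈ Finset.Icc a b, ext a b v n * ext a b (Tbox V w) n =
      ∑ n ∈ Finset.Icc a b, ext a b v n * ext a b w (n - 1) +
      ∑ n ∈ Finset.Icc a b, ext a b v n * ext a b w (n + 1) +
      ∑ n ∈ Finset.Icc a b, V n * ext a b v n * ext a b w n := by
    rw [← Finset.sum_add_distrib, ← Finset.sum_add_distrib]
    refine Finset.sum_congr rfl fun n hn => ?_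
    rw [ext_Tbox V w n hn]; ring
  have h3 := shift_sum (ext a b v) (ext a b w) (ext_of_not v) (ext_of_not w)
  have h4 := shift_sum (ext a b w) (ext a b v) (ext_of_not w) (ext_of_not v)
  have h5 : ∑ n ∈ Finset.Icc a b, ext a b v (n - 1) * ext a b w n =
      ∑ n ∈ Finset.Icc a b, ext a b v n * ext a b w (n + 1) := by
    rw [show ∑ n ∈ Finset.Icc a b, ext a b v (n - 1) * ext a b w n =
      ∑ n ∈ Finset.Icc a b, ext a b w n * ext a b v (n - 1) from
        Finset.sum_congr rfl fun n _ => mul_comm _ _, ← h4]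
    exact Finset.sum_congr rfl fun n _ => mul_comm _ _
  rw [h1, h2, h3, h5]

theorem nsq_ext (v : EuclideanSpace ℝ (Finset.Icc a b)) : nsq a b (ext a b v) = ‖v‖ ^ 2 := by
  rw [← real_inner_self_eq_norm_sq, inner_eq]
  unfold nsq
  exact Finset.sum_congr rfl fun n _ => sq _

theorem isEig_of (V : ℤ → ℝ) (e : ℝ) (v : EuclideanSpace ℝ (Finset.Icc a b)) (hv : ‖v‖ = 1)
    (h : Tbox V v = e • v) : IsEig V a b e (ext a b v) := by
  refine ⟨fun n hn => ext_of_not v n ?_, ?_, fun n h1 h2 => ?_⟩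
  · rw [Finset.mem_Icc]; omega
  · rw [nsq_ext, hv, one_pow]
  · rw [← ext_Tbox V v n (Finset.mem_Icc.mpr ⟨h1, h2⟩), h, ext_smul]

end box

theorem taskStep : TaskStep := by
  intro V L L' E τ d ψ hL hτ hd hbad hψ h1 h2
  obtain ⟨z, hn, he⟩ := hψ
  set a : ℤ := -(L' : ℤ) with ha
  set b : ℤ := (L' : ℤ) with hb
  let x : EuclideanSpace ℝ (Finset.Icc a b) := WithLp.toLp 2 (fun i => ψ i)
  have hx : ∀ n, ext a b x n = ψ n := by
    intro n
    by_cases h : n ∈ Finset.Icc a b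
    · exact ext_of_mem x ⟨n, h⟩
    · rw [ext_of_not x n h, z n]
      rw [Finset.mem_Icc] at h
      omega
  have hsub : Finset.Icc (-(L : ℤ)) L ⊆ Finset.Icc a b := by
    intro n hn
    rw [Finset.mem_Icc] at hn ⊢
    omega
  have hx1 : ‖x‖ = 1 := by
    have h3 : ‖x‖ ^ 2 = 1 := by
      rw [← nsq_ext, ← hn]
      unfold nsq
      rw [← Finset.sum_subset hsub]
      · exact Finset.sum_congr rfl fun n _ => by rw [hx]
      · intro n _ hn2
        rw [hx, z n, zero_pow two_ne_zero]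
        rw [Finset.mem_Icc] at hn2
        omega
    have h4 : 0 ≤ ‖x‖ := norm_nonneg _
    nlinarith
  have hr : ‖Tbox V x - E • x‖ ^ 2 ≤ 2 * τ ^ 2 := by
    have e1 : ∀ n ∈ Finset.Icc a b, ext a b (Tbox V x - E • x) n =
        ψ (n + 1) + ψ (n - 1) + V n * ψ n - E * ψ n := by
      intro n hn
      rw [sub_eq_add_neg, ← neg_smul, ext_add, ext_smul, ext_Tbox V x n hn]
      simp only [hx]; ring
    rw [← nsq_ext]
    unfold nsq
    have e2 : ∑ n ∈ Finset.Icc a b, ext a b (Tbox V x - E • x) n ^ 2 =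
        ∑ n ∈ ({(L:ℤ) + 1, -(L:ℤ) - 1} : Finset ℤ), (ψ (n + 1) + ψ (n - 1) + V n * ψ n - E * ψ n) ^ 2 := by
      rw [Finset.sum_congr rfl fun n hn => by rw [e1 n hn]]
      symm
      apply Finset.sum_subset
      · intro n hn
        rw [Finset.mem_insert, Finset.mem_singleton] at hn
        rw [Finset.mem_Icc]
        omega
      · intro n hn hn2
        rw [Finset.mem_insert, Finset.mem_singleton, not_or] at hn2
        by_cases hin : -(L:ℤ) ≤ n ∧ n ≤ L
        · rw [he n hin.1 hin.2]; ring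
        · rw [z n (by omega), z (n + 1) (by omega), z (n - 1) (by omega)]; ring
    rw [e2, Finset.sum_pair (by omega)]
    rw [z ((L:ℤ) + 1 + 1) (by omega), z ((L:ℤ) + 1) (by omega), z (-(L:ℤ) - 1) (by omega),
      z (-(L:ℤ) - 1 - 1) (by omega)]
    have e3 : (L:ℤ) + 1 - 1 = L := by ring
    have e4 : -(L:ℤ) - 1 + 1 = -L := by ring
    rw [e3, e4]
    have e5 : ψ L ^ 2 ≤ τ ^ 2 := sq_le_sq' (by linarith [neg_abs_le (ψ L)]) (by linarith [le_abs_self (ψ L)])
    have e6 : ψ (-(L:ℤ)) ^ 2 ≤ τ ^ 2 :=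
      sq_le_sq' (by linarith [neg_abs_le (ψ (-(L:ℤ)))]) (by linarith [le_abs_self (ψ (-(L:ℤ)))])
    nlinarith
  obtain ⟨E', y, hy1, hy2, hy3, hy4⟩ := abs_step (Tbox_symm V) x hx1 E τ d hτ hd hr (by
    intro e e' v v' hv hv' hT hT' hle
    by_contra hne
    exact hbad ⟨e, ext a b v, e', ext a b v', isEig_of V e v hv hT, isEig_of V e' v' hv' hT',
      hne, hle⟩)
  refine ⟨E', ext a b y, isEig_of V E' y hy1 hy2, hy3, ?_⟩
  have e7 : ∑ n ∈ Finset.Icc a b, (ψ n - ext a b y n) ^ 2 = ‖x - y‖ ^ 2 := by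
    rw [← nsq_ext]
    unfold nsq
    refine Finset.sum_congr rfl fun n _ => ?_
    rw [sub_eq_add_neg x y, ← neg_one_smul ℝ y, ext_add, ext_smul, hx]; ring
  rw [e7]; exact hy4

end Pool.Agent.H397R3.LP
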